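import Pool.Agent.H.MP_dd1c2e_lc.Uni

/-!
# Log-equivalence for all total functions whose rows have bounded degree over a prime field
-/

set_option autoImplicit false

open Pool.Agent.H.MP_dd1c2e_lc

namespace Pool.Agent.Results.MP_dd1c2e_lc.BoundedDegreeRows

theorem result : ∀ d : ℕ, ∃ C c : ℕ,
    ∀ (X : Type) (n : ℕ) (F : X → (Fin n → Bool) → Bool), (∀ x, ∃ p : ℕ, p.Prime ∧ DegLE p d (F x)) →
      ∀ q : ℕ, QuantumComputes F q → OneWay F (C * q ^ c + C) ∧ DetComputes F (C * q ^ c + C) :=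
  logEquivUniform

end Pool.Agent.Results.MP_dd1c2e_lc.BoundedDegreeRows
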