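import Pool.Agent.H.MP_dd1c2e_lc.alt.Fin3

/-!
# Randomized against quantum communication: matrices with few alternations, VC dimension one
-/

set_option autoImplicit false

open Pool.Agent.H.MP_dd1c2e_lc Pool.Agent.H.MP_dd1c2e_lc.Alt

namespace Pool.Agent.Results.MP_dd1c2e_lc.FewAlternations

theorem result :
    (∀ (X Y : Type) (N K q : ℕ) (e : Fin N ≃ X) (F : X → Y → Bool), (∀ y, alt e F y ≤ K) →
      QuantumComputes F q → RandComputes F ((4 * q + 10) * (Nat.clog 2 (3 * ((4 * q + 11) * K)) + 1))) ∧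
    (∀ (X Y : Type) [Finite X] (q : ℕ) (F : X → Y → Bool), VCOne F →
      QuantumComputes F q → RandComputes F ((4 * q + 10) * (Nat.clog 2 (3 * ((4 * q + 11) * 2)) + 1))) :=
  ⟨fun _ _ N K q e F hK hq => rand_quantum N K q e F hK hq,
   fun _ _ _ q F h hq => rand_vc q F h hq⟩

end Pool.Agent.Results.MP_dd1c2e_lc.FewAlternations
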