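import Pool.Agent.H.MP_dd1c2e_lc.lx.Bridge

/-!
# The log-equivalence conjecture is false
-/

set_option autoImplicit false

open Pool.Agent.H.MP_dd1c2e_lc.Model

namespace Pool.Agent.Results.MP_dd1c2e_lc.LogEquivalenceFails

theorem result :
    ∃ K : ℕ, ∀ C c : ℝ, 0 < C → 0 < c → ∃ n₀ : ℕ, ∀ n : ℕ, n₀ ≤ n →
      ∃ (F : (Fin n → Bool) → (Fin n → Bool) → Bool) (q : ℕ), q ≤ Nat.log 2 n ^ 3 ∧ QNoEnt F q ∧ QEnt F q ∧
        ∀ k : ℕ, Rand F k → C * (q : ℝ) ^ c + C < k ∧ n ≤ k ^ K :=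
  Pool.Agent.H.MP_dd1c2e_lc.LX.answer

end Pool.Agent.Results.MP_dd1c2e_lc.LogEquivalenceFails
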