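import Pool.Agent.H.MP_dd1c2e_lc.ro.Fi

/-!
# Randomized against quantum communication: read-once compositions over the full binary basis
-/

set_option autoImplicit false

open Pool.Agent.H.MP_dd1c2e_lc Pool.Agent.H.MP_dd1c2e_lc.Alt Pool.Agent.H.MP_dd1c2e_lc.RO

namespace Pool.Agent.Results.MP_dd1c2e_lc.ReadOnceCompositions

theorem result :
    ∃ C : ℕ, ∀ (p : ℕ → ℕ) (X Y : Type) (F : X → Y → Bool) (q : ℕ),
      ReadOnce (fun X Y g => (Finite X ∧ Finite Y) ∧ ∀ k, QuantumComputes g k → RandComputes g (p k)) X Y F →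
        QuantumComputes F q → RandComputes F (C * (q + 1) ^ 8 * (p q + 1)) :=
  ⟨5 * 2400 * 2400 * 48 * 10 ^ 6, fun p X Y F q h hq => ro_main p X Y F q h hq⟩

end Pool.Agent.Results.MP_dd1c2e_lc.ReadOnceCompositions
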